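import Pool.Agent.H937Z.Tight.Bier

/-! A tight closed simplicial 7-manifold none of whose barycentric subdivisions is perfect.

The manifold is the real moment-angle complex (a cubical subcomplex of the 16-cube, triangulated
without new vertices) of the Bier sphere of an 8-vertex 2-complex with first homology of order 3.
It is tight over every field, and its second Betti number mod 3 exceeds the one mod 2. -/

set_option autoImplicit false

namespace Pool.Agent.Results.MP_e98a5c_gt.ATightNotPerfect

open Pool.Agent.H937Z.Tight

theorem result : ∃ C : Geometry.SimplicialComplex ℝ (EuclideanSpace ℝ (Fin 16)),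
    C.faces.Finite ∧ Nonempty (ChartedSpace (EuclideanSpace ℝ (Fin 7)) C.space) ∧
    (∀ π, IsTightAt C.space π) ∧
    ∀ m : ℕ, ¬ IsPerfect (sd^[m] ⟨_, C.toPreAbstractSimplicialComplex⟩) :=
  main

end Pool.Agent.Results.MP_e98a5c_gt.ATightNotPerfect
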